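import Mathlib

/-!
# Project ZG (helper54): homomorphisms from a graded domain to the real numbers
-/

set_option autoImplicit false

open Module

namespace Pool.Agent.K6.H54.ZG

variable {H : Type} [CommRing H] [IsDomain H] [Algebra ℚ H] {A : ℕ → Submodule ℚ H}

/-- the period map on the subspace `U` -/
noncomputable def res (per : H →ₐ[ℚ] ℝ) (U : Submodule ℚ H) : U →ₗ[ℚ] ℝ :=
  per.toLinearMap.comp U.subtype

theorem range_res (per : H →ₐ[ℚ] ℝ) (U : Submodule ℚ H) :
    LinearMap.range (res per U) = U.map per.toLinearMap := by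
  rw [res, LinearMap.range_comp, Submodule.range_subtype]

theorem rank_nullity (per : H →ₐ[ℚ] ℝ) (U : Submodule ℚ H) [FiniteDimensional ℚ U] :
    finrank ℚ (U.map per.toLinearMap) + finrank ℚ (LinearMap.ker (res per U)) = finrank ℚ U := by
  rw [← range_res]
  exact LinearMap.finrank_range_add_finrank_ker _

/-- A relation `a` gives relations `x * a`. -/
theorem ker_ge (per : H →ₐ[ℚ] ℝ) (U B : Submodule ℚ H) [FiniteDimensional ℚ U] {a : H}
    (ha : a ≠ 0) (h0 : per a = 0) (hmul : ∀ x ∈ B, x * a ∈ U) :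
    finrank ℚ B ≤ finrank ℚ (LinearMap.ker (res per U)) := by
  let g : B →ₗ[ℚ] U := LinearMap.codRestrict U ((LinearMap.mulRight ℚ a).comp B.subtype)
    (fun x => hmul x x.2)
  let g' : B →ₗ[ℚ] LinearMap.ker (res per U) := LinearMap.codRestrict _ g (fun x => by
    rw [LinearMap.mem_ker]
    change per ((x : H) * a) = 0
    rw [map_mul, h0, mul_zero])
  refine LinearMap.finrank_le_finrank_of_injective (f := g') ?_
  intro x y hxy
  have h1 : (x : H) * a = (y : H) * a := congrArg (fun z => ((z : U) : H)) (congrArg Subtype.val hxy)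
  exact Subtype.ext (mul_right_cancel₀ ha h1)

theorem image_le (per : H →ₐ[ℚ] ℝ) (U B : Submodule ℚ H) [FiniteDimensional ℚ U] {a : H}
    (ha : a ≠ 0) (h0 : per a = 0) (hmul : ∀ x ∈ B, x * a ∈ U) :
    finrank ℚ (U.map per.toLinearMap) + finrank ℚ B ≤ finrank ℚ U := by
  have h1 := rank_nullity per U
  have h2 := ker_ge per U B ha h0 hmul
  omega

theorem exists_rel (per : H →ₐ[ℚ] ℝ) (U : Submodule ℚ H) [FiniteDimensional ℚ U]
    (h : finrank ℚ (U.map per.toLinearMap) ≠ finrank ℚ U) : ∃ a ∈ U, a ≠ 0 ∧ per a = 0 := by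
  have h1 := rank_nullity per U
  have h2 : LinearMap.ker (res per U) ≠ ⊥ := by
    intro h3
    rw [h3, finrank_bot] at h1
    exact h (by omega)
  obtain ⟨x, hx, hx0⟩ := Submodule.exists_mem_ne_zero_of_ne_bot h2
  exact ⟨x, x.2, fun h3 => hx0 (Subtype.ext h3), LinearMap.mem_ker.1 hx⟩

theorem no_rel (per : H →ₐ[ℚ] ℝ) (U : Submodule ℚ H) [FiniteDimensional ℚ U]
    (h : finrank ℚ (U.map per.toLinearMap) = finrank ℚ U) {a : H} (ha : a ∈ U) (h0 : per a = 0) :
    a = 0 := by
  have h1 := rank_nullity per U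
  have h2 : finrank ℚ (LinearMap.ker (res per U)) = 0 := by omega
  have h3 : LinearMap.ker (res per U) = ⊥ := Submodule.finrank_eq_zero.1 h2
  have h4 : (⟨a, ha⟩ : U) ∈ LinearMap.ker (res per U) := LinearMap.mem_ker.2 h0
  rw [h3, Submodule.mem_bot] at h4
  exact congrArg Subtype.val h4

variable [GradedAlgebra A]

/-- In one weight: a relation of weight `m` gives many relations of weight `n`. -/
theorem weight_le (per : H →ₐ[ℚ] ℝ) (hfin : ∀ n, FiniteDimensional ℚ (A n)) {m n : ℕ} (hmn : m ≤ n)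
    {a : H} (ham : a ∈ A m) (ha : a ≠ 0) (h0 : per a = 0) :
    finrank ℚ ((A n).map per.toLinearMap) + finrank ℚ (A (n - m)) ≤ finrank ℚ (A n) := by
  have := hfin n
  refine image_le per (A n) (A (n - m)) ha h0 fun x hx => ?_
  have h1 := SetLike.mul_mem_graded hx ham
  rwa [Nat.sub_add_cancel hmn] at h1

/-- If a homogeneous element `x` of weight `n` is a multiple of the element `f` of weight `k`, then
it is the product with a homogeneous element. -/
theorem homog_factor {k n : ℕ} {f x : H} (hf : f ∈ A k) (hx : x ∈ A n) (hx0 : x ≠ 0)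
    (h : f ∣ x) : k ≤ n ∧ ∃ y ∈ A (n - k), x = f * y := by
  classical
  obtain ⟨y, hy⟩ := h
  have h1 : x = ((DirectSum.decompose A x n : A n) : H) := by
    rw [DirectSum.decompose_of_mem_same A hx]
  have hkn : k ≤ n := by
    by_contra hlt
    push Not at hlt
    apply hx0
    rw [h1, hy, DirectSum.coe_decompose_mul_of_left_mem_of_not_le A hf (by omega)]
  refine ⟨hkn, ((DirectSum.decompose A y (n - k) : A (n - k)) : H), Subtype.mem _, ?_⟩
  rw [h1]
  conv_lhs => rw [hy]
  exact DirectSum.coe_decompose_mul_of_left_mem_of_le A hf hkn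

end Pool.Agent.K6.H54.ZG
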