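import Pool.Agent.K6.H54.ZG.Alg

/-!
# Project ZG (helper54): the increments modulo a prime element
-/

set_option autoImplicit false

open Module

namespace Pool.Agent.K6.H54.ZG

variable {H : Type} [CommRing H] [IsDomain H] [Algebra ℚ H] {A : ℕ → Submodule ℚ H}

theorem finrank_mul {a : H} (ha : a ≠ 0) (U : Submodule ℚ H) :
    finrank ℚ (U.map (LinearMap.mulLeft ℚ a)) = finrank ℚ U := by
  have hinj : Function.Injective (LinearMap.mulLeft ℚ a) := fun x y hxy => mul_left_cancel₀ ha hxy
  exact (Submodule.equivMapOfInjective (LinearMap.mulLeft ℚ a) hinj U).finrank_eq.symm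

instance fd_mul (a : H) (U : Submodule ℚ H) [FiniteDimensional ℚ U] :
    FiniteDimensional ℚ (U.map (LinearMap.mulLeft ℚ a)) := inferInstance

theorem ker_mono (per : H →ₐ[ℚ] ℝ) {W U : Submodule ℚ H} [FiniteDimensional ℚ U] (h : W ≤ U) :
    finrank ℚ (LinearMap.ker (res per W)) ≤ finrank ℚ (LinearMap.ker (res per U)) := by
  let g : LinearMap.ker (res per W) →ₗ[ℚ] LinearMap.ker (res per U) :=
    LinearMap.codRestrict _ ((Submodule.inclusion h).comp (LinearMap.ker (res per W)).subtype)
      (fun x => by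
        rw [LinearMap.mem_ker]
        exact LinearMap.mem_ker.1 x.2)
  refine LinearMap.finrank_le_finrank_of_injective (f := g) ?_
  intro x y hxy
  have h1 : ((x : W) : H) = ((y : W) : H) :=
    congrArg (fun z => ((z : U) : H)) (congrArg Subtype.val hxy)
  exact Subtype.ext (Subtype.ext h1)

variable [GradedAlgebra A]

/-- The increments: `f` a prime element of weight `k` with `per f ≠ 0`, and `a` a relation of weight
`m` which is not divisible by `f`. -/
theorem incr (per : H →ₐ[ℚ] ℝ) (hfin : ∀ n, FiniteDimensional ℚ (A n)) {k m n : ℕ} {f a : H}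
    (hf : f ∈ A k) (hprime : Prime f) (hkm : k + m ≤ n) (ham : a ∈ A m) (ha : a ≠ 0)
    (h0 : per a = 0) (hfa : ¬ f ∣ a) :
    finrank ℚ ((A n).map per.toLinearMap) + finrank ℚ (A (n - m)) + finrank ℚ (A (n - k)) ≤
      finrank ℚ ((A (n - k)).map per.toLinearMap) + finrank ℚ (A n) + finrank ℚ (A (n - m - k)) := by
  have i1 := hfin n
  have i2 := hfin (n - m)
  have i3 := hfin (n - k)
  have i4 := hfin (n - m - k)
  set W1 := (A (n - k)).map (LinearMap.mulLeft ℚ f) with hW1
  set W2 := (A (n - m)).map (LinearMap.mulLeft ℚ a) with hW2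
  have e1 : finrank ℚ W1 = finrank ℚ (A (n - k)) := finrank_mul hprime.ne_zero _
  have e2 : finrank ℚ W2 = finrank ℚ (A (n - m)) := finrank_mul ha _
  have e3 := Submodule.finrank_sup_add_finrank_inf_eq W1 W2
  have e4 : finrank ℚ ↑(W1 ⊓ W2) ≤ finrank ℚ (A (n - m - k)) := by
    rw [← finrank_mul (mul_ne_zero ha hprime.ne_zero) (A (n - m - k))]
    refine Submodule.finrank_mono ?_
    rintro z ⟨⟨x, hx, rfl⟩, ⟨y, hy, hxy⟩⟩
    have h1 : a * y = f * x := hxy
    by_cases hy0 : y = 0
    · rw [hy0, mul_zero] at h1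
      have h2 : LinearMap.mulLeft ℚ f x = 0 := h1.symm
      rw [h2]
      exact Submodule.zero_mem _
    have h2 : f ∣ a * y := ⟨x, h1⟩
    have h3 : f ∣ y := (hprime.dvd_or_dvd h2).resolve_left hfa
    obtain ⟨_, w, hw, hw2⟩ := homog_factor hf hy hy0 h3
    refine ⟨w, hw, ?_⟩
    change a * f * w = f * x
    rw [← h1, hw2, mul_assoc]
  have hWle : W1 ⊔ W2 ≤ A n := by
    refine sup_le ?_ ?_
    · rintro _ ⟨x, hx, rfl⟩
      have h1 := SetLike.mul_mem_graded hf hx
      rwa [show k + (n - k) = n by omega] at h1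
    · rintro _ ⟨x, hx, rfl⟩
      have h1 := SetLike.mul_mem_graded ham hx
      rwa [show m + (n - m) = n by omega] at h1
  have e5 : finrank ℚ ((W1 ⊔ W2).map per.toLinearMap) ≤
      finrank ℚ ((A (n - k)).map per.toLinearMap) := by
    have h1 : (W1 ⊔ W2).map per.toLinearMap ≤
        ((A (n - k)).map per.toLinearMap).map (LinearMap.mulLeft ℚ (per f)) := by
      rw [Submodule.map_sup]
      refine sup_le ?_ ?_
      · rintro _ ⟨_, ⟨x, hx, rfl⟩, rfl⟩
        exact ⟨per x, ⟨x, hx, rfl⟩, (map_mul per f x).symm⟩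
      · rintro _ ⟨_, ⟨x, hx, rfl⟩, rfl⟩
        have h2 : per.toLinearMap (LinearMap.mulLeft ℚ a x) = 0 := by
          change per (a * x) = 0
          rw [map_mul, h0, zero_mul]
        rw [h2]
        exact Submodule.zero_mem _
    exact (Submodule.finrank_mono h1).trans (Submodule.finrank_map_le _ _)
  have e6 := rank_nullity per (W1 ⊔ W2)
  have e7 := ker_mono per hWle
  have e8 := rank_nullity per (A n)
  omega

/-- The first relation is not divisible by `f`. -/
theorem not_dvd (per : H →ₐ[ℚ] ℝ) (hfin : ∀ n, FiniteDimensional ℚ (A n)) {k m : ℕ} (hk : 0 < k)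
    {f a : H} (hf : f ∈ A k) (hper : per f ≠ 0) (ham : a ∈ A m) (ha : a ≠ 0) (h0 : per a = 0)
    (hmin : ∀ j < m, finrank ℚ ((A j).map per.toLinearMap) = finrank ℚ (A j)) : ¬ f ∣ a := by
  intro hd
  obtain ⟨hkm, y, hy, rfl⟩ := homog_factor hf ham ha hd
  have h1 : per y = 0 := by
    rw [map_mul] at h0
    exact (mul_eq_zero.1 h0).resolve_left hper
  have := hfin (m - k)
  have h2 := no_rel per (A (m - k)) (hmin _ (by omega)) hy h1
  exact ha (by rw [h2, mul_zero])

/-! ### the filtration -/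

/-- the sum of the spaces of weight at most `n` -/
def upTo {E : Type} [AddCommGroup E] [Module ℚ E] (B : ℕ → Submodule ℚ E) (n : ℕ) :
    Submodule ℚ E := ⨆ i ∈ Finset.range (n + 1), B i

theorem upTo_succ {E : Type} [AddCommGroup E] [Module ℚ E] (B : ℕ → Submodule ℚ E) (n : ℕ) :
    upTo B (n + 1) = upTo B n ⊔ B (n + 1) := by
  rw [upTo, upTo, Finset.range_add_one (n := n + 1), Finset.iSup_insert, sup_comm]

theorem upTo_zero {E : Type} [AddCommGroup E] [Module ℚ E] (B : ℕ → Submodule ℚ E) :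
    upTo B 0 = B 0 := by
  simp [upTo]

theorem le_upTo {E : Type} [AddCommGroup E] [Module ℚ E] (B : ℕ → Submodule ℚ E) {i n : ℕ}
    (h : i ≤ n) : B i ≤ upTo B n := by
  exact le_biSup B (Finset.mem_range.2 (by omega))

theorem map_upTo (per : H →ₐ[ℚ] ℝ) (n : ℕ) :
    (upTo A n).map per.toLinearMap = upTo (fun i => (A i).map per.toLinearMap) n := by
  rw [upTo, upTo]
  simp only [Submodule.map_iSup]

theorem fd_upTo (hfin : ∀ n, FiniteDimensional ℚ (A n)) (n : ℕ) :
    FiniteDimensional ℚ (upTo A n) := by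
  induction n with
  | zero => rw [upTo_zero]; exact hfin 0
  | succ n ih =>
    rw [upTo_succ]
    have := hfin (n + 1)
    infer_instance

theorem finrank_upTo (hfin : ∀ n, FiniteDimensional ℚ (A n)) (n : ℕ) :
    finrank ℚ (upTo A n) = ∑ i ∈ Finset.range (n + 1), finrank ℚ (A i) := by
  classical
  induction n with
  | zero => rw [upTo_zero, zero_add, Finset.sum_range_one]
  | succ n ih =>
    rw [Finset.sum_range_succ, ← ih, upTo_succ]
    have i1 := fd_upTo (A := A) hfin n
    have i2 := hfin (n + 1)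
    have hind := (DirectSum.Decomposition.isInternal A).submodule_iSupIndep (n + 1)
    have h1 : upTo A n ⊓ A (n + 1) = ⊥ := by
      refine (Disjoint.mono_right ?_ hind).symm.eq_bot
      refine iSup₂_le fun i hi => ?_
      have : i ≠ n + 1 := by
        have := Finset.mem_range.1 hi
        omega
      exact le_iSup₂_of_le i this le_rfl
    have h2 := Submodule.finrank_sup_add_finrank_inf_eq (upTo A n) (A (n + 1))
    rw [h1, finrank_bot] at h2
    omega

theorem mul_upTo {i j : ℕ} {x y : H} (hx : x ∈ upTo A i) (hy : y ∈ upTo A j) :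
    x * y ∈ upTo A (i + j) := by
  have h1 : upTo A i * upTo A j ≤ upTo A (i + j) := by
    rw [upTo, upTo]
    simp only [Submodule.iSup_mul, Submodule.mul_iSup]
    refine iSup₂_le fun a ha => iSup₂_le fun b hb => ?_
    have ha' := Finset.mem_range.1 ha
    have hb' := Finset.mem_range.1 hb
    rw [Submodule.mul_le]
    intro u hu v hv
    exact le_upTo A (by omega) (SetLike.mul_mem_graded hu hv)
  exact h1 (Submodule.mul_mem_mul hx hy)

theorem upTo_le (per : H →ₐ[ℚ] ℝ) (hfin : ∀ n, FiniteDimensional ℚ (A n)) {m n : ℕ} (hmn : m ≤ n)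
    (h : finrank ℚ ((upTo A m).map per.toLinearMap) ≠ finrank ℚ (upTo A m)) :
    finrank ℚ ((upTo A n).map per.toLinearMap) + finrank ℚ (upTo A (n - m)) ≤
      finrank ℚ (upTo A n) := by
  have i1 := fd_upTo (A := A) hfin n
  have i2 := fd_upTo (A := A) hfin m
  obtain ⟨a, ham, ha, h0⟩ := exists_rel per (upTo A m) h
  refine image_le per (upTo A n) (upTo A (n - m)) ha h0 fun x hx => ?_
  have h1 := mul_upTo hx ham
  rwa [Nat.sub_add_cancel hmn] at h1

end Pool.Agent.K6.H54.ZG
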